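import Pool.Agent.P.MP_119182_lc.WQ.Main

/-! The price of a distance with an exponent close to one. -/

set_option autoImplicit false

namespace Pool.Agent.P.MP_119182_lc.WQ

open Finset
open scoped Classical

/-- The price of a distance of binary length `l`. -/
def gq (q l : ℕ) : ℕ := l * 4 ^ Nat.log (4 ^ q) l

/-- For each `q` there are weights with small partial sums that pay for the links in cold
cells. -/
def S_EPS : Prop :=
  ∀ q : ℕ, 2 ≤ q → ∃ (wt : ℕ → ℕ) (C : ℕ), (∀ k, 1 ≤ k → 1 ≤ wt k) ∧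
    (∀ l, ∑ k ∈ range (l + 1), wt k ≤ C * (gq q l + 1)) ∧ S_LQ wt

theorem gq_mono (q : ℕ) : Monotone (gq q) := fun _ _ h =>
  Nat.mul_le_mul h (Nat.pow_le_pow_right (by norm_num) (Nat.log_mono_right h))

theorem gq_pos (q l : ℕ) (hl : 1 ≤ l) : 1 ≤ gq q l :=
  Nat.mul_pos hl (by positivity)

theorem log_mul_le {B : ℕ} (hB : 1 < B) (a b : ℕ) :
    Nat.log B (a * b) ≤ Nat.log B a + Nat.log B b + 1 := by
  rcases Nat.eq_zero_or_pos (a * b) with h | h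
  · simp [h]
  have h1 := Nat.lt_pow_succ_log_self hB a
  have h2 := Nat.lt_pow_succ_log_self hB b
  refine Nat.lt_succ_iff.1 (Nat.log_lt_of_lt_pow h.ne' ?_)
  calc a * b < B ^ (Nat.log B a).succ * B ^ (Nat.log B b).succ := Nat.mul_lt_mul'' h1 h2
    _ = _ := by
      rw [← pow_add]
      congr 1
      omega

theorem gq_grow {q : ℕ} (hq : 1 ≤ q) (l e : ℕ) (hl : 1 ≤ l) :
    gq q (l + e) ≤ 4 * gq q l * (e + 1) ^ 4 := by
  have hB : 1 < 4 ^ q := Nat.one_lt_pow (by omega) (by norm_num)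
  have h1 : l + e ≤ l * (e + 1) := by nlinarith
  have h2 := log_mul_le hB l (e + 1)
  have h3 : 4 ^ Nat.log (4 ^ q) (e + 1) ≤ e + 1 :=
    (Nat.pow_le_pow_left (Nat.le_self_pow (by omega) 4) _).trans
      (Nat.pow_log_le_self _ (by omega))
  have h4 : (e + 1) * (e + 1) ≤ (e + 1) ^ 4 := by
    rw [← pow_two]
    exact Nat.pow_le_pow_right (by omega) (by norm_num)
  refine (gq_mono q h1).trans ?_
  unfold gq
  calc l * (e + 1) * 4 ^ Nat.log (4 ^ q) (l * (e + 1))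
      ≤ l * (e + 1) * 4 ^ (Nat.log (4 ^ q) l + Nat.log (4 ^ q) (e + 1) + 1) :=
        Nat.mul_le_mul_left _ (Nat.pow_le_pow_right (by norm_num) h2)
    _ = 4 * (l * 4 ^ Nat.log (4 ^ q) l) * ((e + 1) * 4 ^ Nat.log (4 ^ q) (e + 1)) := by ring
    _ ≤ _ := Nat.mul_le_mul_left _ ((Nat.mul_le_mul_left _ h3).trans h4)

theorem lq_zero {wt : ℕ → ℕ} (h : S_LQ wt) : S_LQ fun k => if k = 0 then 0 else wt k := by
  obtain ⟨C, hC⟩ := h
  refine ⟨C, fun sg J d c ok hc hJ => (hC sg J d c ok hc hJ).trans (le_of_eq ?_)⟩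
  congr 3
  refine sum_congr rfl fun j _ => ?_
  beta_reduce
  split_ifs with h0
  · have e : LP.LV d c j = ∅ := by
      refine filter_eq_empty_iff.2 ?_
      rintro p - ⟨t, v, h1, -⟩
      have := hc.low _ _ _ h1
      omega
    simp [e]
  · rfl

theorem final {q : ℕ} (hq : 1 ≤ q) {wt : ℕ → ℕ} {D : ℕ} (h1 : ∀ k, 1 ≤ k → 1 ≤ wt k)
    (hs : ∀ l, ∑ k ∈ range (l + 1), wt k ≤ D * (gq q l + 1)) (hT : S_LQ wt) :
    ∃ C : ℕ, ∀ (n u m : ℕ) (T : BT) (a y : ℕ → ℕ) (Q : ℕ → Finset ℕ),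
    T.keys = List.range' 1 n → (∀ i < m, 1 ≤ a i ∧ a i ≤ n) →
    (∀ i, i + 1 < m → Q (i + 1) ⊆ insert (a i) (Q i)) →
    (∀ i < m, wset a i (y i) ≤ 2 ^ u ∨ y i ∈ Q i) →
    cost T ((List.range m).map a) ≤ C * ((u + 1) * (n + m) + n * Nat.log 2 (#(Q 0) + 1) +
      ∑ i ∈ range m, Nat.log 2 (#(Q i) + 1) +
      ∑ i ∈ range m, gq q (Nat.log 2 (Nat.dist (a i) (y i) / 2 ^ u + 1))) := by
  have hw : Wt 4 (fun k => if k = 0 then 0 else wt k) fun l => 2 * D * gq q l := by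
    refine ⟨if_pos rfl, fun k hk => ?_, fun l => ?_, fun l e hl => ?_⟩
    · rw [if_neg (by omega)]
      exact h1 k hk
    · rcases Nat.eq_zero_or_pos l with rfl | hl
      · simp
      have h2 := gq_pos q l hl
      have h3 : ∑ k ∈ range (l + 1), (if k = 0 then 0 else wt k) ≤ ∑ k ∈ range (l + 1), wt k :=
        sum_le_sum fun k _ => by split_ifs <;> omega
      refine h3.trans ((hs l).trans ?_)
      rw [mul_comm 2 D, mul_assoc]
      exact Nat.mul_le_mul_left _ (by omega)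
    · refine (Nat.mul_le_mul_left _ (gq_grow hq l e hl)).trans (le_of_eq ?_)
      ring
  refine fin2 (G := gq q) (by simp [gq]) (gq_mono q)
    (fin0 (B := 128 * D) hw (lq_zero hT) fun l => ?_) GP.p_WIT
  have h4 : gq q (l + 1) ≤ 64 * (gq q l + 1) := by
    rcases Nat.eq_zero_or_pos l with rfl | hl
    · simp [gq]
    · have := gq_grow hq l 1 hl
      omega
  calc 2 * D * gq q (l + 1) ≤ 2 * D * (64 * (gq q l + 1)) := Nat.mul_le_mul_left _ h4
    _ = _ := by ring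

theorem gq_real {q : ℕ} (hq : 1 ≤ q) {ε : ℝ} (hε : 1 / (q : ℝ) ≤ ε) (l : ℕ) :
    (gq q l : ℝ) ≤ (l : ℝ) ^ (1 + ε) := by
  have hq0 : (0 : ℝ) < q := by exact_mod_cast hq
  rcases Nat.eq_zero_or_pos l with rfl | hl
  · simp only [gq, zero_mul, Nat.cast_zero]
    positivity
  have hl1 : (1 : ℝ) ≤ l := by exact_mod_cast hl
  have h1 : ((4 : ℝ) ^ Nat.log (4 ^ q) l) ^ q ≤ l := by
    have := Nat.pow_log_le_self (4 ^ q) hl.ne'
    rw [← pow_mul, mul_comm, pow_mul] at this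
    exact_mod_cast this
  have h2 : (4 : ℝ) ^ Nat.log (4 ^ q) l ≤ (l : ℝ) ^ ε := by
    refine le_trans ?_ (Real.rpow_le_rpow_of_exponent_le hl1 hε)
    rw [one_div]
    exact (Real.le_rpow_inv_iff_of_pos (by positivity) (by positivity) hq0).2
      (by rwa [Real.rpow_natCast])
  rw [Real.rpow_add (by linarith), Real.rpow_one]
  unfold gq
  push_cast
  exact mul_le_mul_of_nonneg_left h2 (by linarith)

theorem eps (h : S_EPS) (ε : ℝ) (hε : 0 < ε) :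
    ∃ C : ℝ, ∀ (n u m : ℕ) (T : BT) (a y : ℕ → ℕ) (Q : ℕ → Finset ℕ),
    T.keys = List.range' 1 n → (∀ i < m, 1 ≤ a i ∧ a i ≤ n) →
    (∀ i, i + 1 < m → Q (i + 1) ⊆ insert (a i) (Q i)) →
    (∀ i < m, wset a i (y i) ≤ 2 ^ u ∨ y i ∈ Q i) →
    (cost T ((List.range m).map a) : ℝ) ≤ C * (((u + 1) * (n + m) +
      n * Nat.log 2 (#(Q 0) + 1) + ∑ i ∈ range m, Nat.log 2 (#(Q i) + 1) : ℕ) +
      ∑ i ∈ range m, (Nat.log 2 (Nat.dist (a i) (y i) / 2 ^ u + 1) : ℝ) ^ (1 + ε)) := by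
  obtain ⟨q0, hq0⟩ := exists_nat_one_div_lt hε
  have hq : 1 / ((q0 + 2 : ℕ) : ℝ) ≤ ε := by
    refine le_trans (one_div_le_one_div_of_le (by positivity) ?_) hq0.le
    push_cast
    linarith
  obtain ⟨wt, D, h1, hs, hT⟩ := h (q0 + 2) (by omega)
  obtain ⟨C, hC⟩ := final (by omega) h1 hs hT
  refine ⟨C, fun n u m T a y Q k1 k2 k3 k4 => ?_⟩
  refine (Nat.cast_le.2 (hC n u m T a y Q k1 k2 k3 k4)).trans ?_
  rw [Nat.cast_mul, Nat.cast_add _ (∑ i ∈ range m, gq _ _)]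
  refine mul_le_mul_of_nonneg_left (add_le_add le_rfl ?_) (Nat.cast_nonneg _)
  rw [Nat.cast_sum]
  exact sum_le_sum fun i _ => gq_real (by omega) hq _

end Pool.Agent.P.MP_119182_lc.WQ
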