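import Pool.Agent.P.MP_119182_lc.TV.Main
import Pool.Agent.P.MP_119182_lc.WQ.Fin

/-! The bound for a general weight of the lives of cold cells. -/

set_option autoImplicit false

namespace Pool.Agent.P.MP_119182_lc.WQ

open Finset
open scoped Classical
open NU (mr)
open IT (Marks One mq conn Kill Lives)
open GP
open TV (sw sw_mq up)

/-- Weights of levels whose partial sums grow slowly. -/
structure Wt (A : ℕ) (wt S : ℕ → ℕ) : Prop where
  zero : wt 0 = 0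
  one : ∀ k, 1 ≤ k → 1 ≤ wt k
  sum : ∀ l, ∑ k ∈ range (l + 1), wt k ≤ S l
  grow : ∀ l e, 1 ≤ l → S (l + e) ≤ A * S l * (e + 1) ^ 4

/-- The bound for the links in cold cells, with the weight `wt` for each life. -/
def S_LQ (wt : ℕ → ℕ) : Prop :=
  ∃ C : ℕ, ∀ (sg J : ℕ) (d : NU.Run) (c : ℕ → ℕ → ℤ → Prop), d.OK → LP.Cold sg d c →
    LP.sm J d.L d.R →
    800 * #(LP.PL d c) ≤ 2 * #(LP.ON d) + C * ((d.R - d.L).toNat + d.m + #(LP.NP d c) +
      ∑ t ∈ range d.m, IT.int (sg + 1) d t + ∑ t ∈ range d.m, IT.int (sg + 1) d.mir t +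
      ∑ j ∈ range J, wt (j - sg) * #(LP.LV d c j))

/-- The weight of the free cells that are hit. -/
noncomputable def ww (wt : ℕ → ℕ) (σ J : ℕ) (L R : ℤ) (m : ℕ) (x : ℕ → ℤ)
    (Q : ℕ → Finset ℤ) : ℕ :=
  ∑ t ∈ range (m - 1), ∑ j ∈ hit σ J L R x Q t, wt (j - σ)

theorem hit_mr (σ J : ℕ) (L R : ℤ) (x : ℕ → ℤ) (Q : ℕ → Finset ℤ) (t : ℕ) :
    hit σ J (mr R) (mr L) (fun i => mr (x i)) (mq Q) t = hit σ J L R x Q t := by
  unfold hit
  refine filter_congr fun j _ => ?_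
  have k : mr (mr (x (t + 1) / 2 ^ j)) = x (t + 1) / 2 ^ j := by
    unfold mr
    omega
  show fr (mr R) (mr L) ((Q t).image mr) j (mr (x (t + 1)) / 2 ^ j) ↔ _
  rw [MIRWx.frm, MIRWx.mr_div, k]

theorem ww_mr (wt : ℕ → ℕ) (σ J : ℕ) (L R : ℤ) (m : ℕ) (x : ℕ → ℤ) (Q : ℕ → Finset ℤ) :
    ww wt σ J (mr R) (mr L) m (fun i => mr (x i)) (mq Q) = ww wt σ J L R m x Q := by
  simp only [ww, hit_mr]

theorem inst_le {A : ℕ} {wt S : ℕ → ℕ} (hw : Wt A wt S) (σ J c Z : ℕ) (d : NU.Run)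
    (Q : ℕ → Finset ℤ) (hd : d.OK) (hJ : d.L / 2 ^ J = d.R / 2 ^ J)
    (hM : Marks d.L d.R d.m d.x c Z Q) (hO : One d.m d.x Q) :
    ∃ dt sd lab, Sys (its σ d.L d.R Q) d Q sd dt lab ∧
      inst (its σ d.L d.R Q) d Q dt ≤
        5 * (d.R - d.L).toNat + 6 * ww wt σ J d.L d.R d.m d.x Q := by
  have hKA := p_KA p_ITEM
  have hKB := p_KB p_ITEM
  have hK : Kill d.m (lv (its σ d.L d.R Q) d.L d.R Q) (KL σ d.L d.R d.x Q) (KR σ d.L d.R d.x Q) :=
    ⟨fun t B B' _ h1 h2 => (hKA σ d.L d.R d.x Q t B B' h1 h2).1,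
      fun t B B' _ h1 h2 => (hKA σ d.L d.R d.x Q t B B' h1 h2).2,
      fun t B ht h1 h2 h3 => (hKB σ d.L d.R d.m d.x c Z Q hM hO t B ht h1 h2 h3).1,
      fun t B B' ht h0 h1 h2 h3 h4 h5 h6 =>
        p_KC p_ITEM σ d.L d.R d.m d.x c Z Q hM hO t B B' ht h0 h1 ⟨h3, h2⟩ h4 ⟨h5, h6⟩⟩
  obtain ⟨dt, sd, lab, hL, hF, hD⟩ := p_DTH d.m (its σ d.L d.R Q) _ _ _ hK
    fun t B ht h1 h0 h2 h3 => (hKB σ d.L d.R d.m d.x c Z Q hM hO t B ht h1 h2 h3).2 h0
  refine ⟨dt, sd, lab, ⟨hd, hM.own, ⟨fun t => (p_ITEM σ d.L d.R (Q t)).2.2.2.2.2.1.1,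
    fun t => (p_ITEM σ d.L d.R (Q t)).2.2.2.2.2.1.2⟩, hL, hF⟩, ?_⟩
  have h1 : inst (its σ d.L d.R Q) d Q dt ≤ (d.R - d.L).toNat + ∑ t ∈ range (d.m - 1),
      (2 * #(hit σ J d.L d.R d.x Q t) + 4 * born σ J d.L d.R Q t) := by
    have e : inst (its σ d.L d.R Q) d Q dt = ∑ t ∈ range d.m, #((Ioo d.L d.R).filter fun B =>
        its σ d.L d.R Q t B = B ∧ lv (its σ d.L d.R Q) d.L d.R Q t B ∧ dt t B = t) := by
      simp only [inst, card_filter, sum_product]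
    rw [e]
    rcases hm : d.m with _ | k
    · simp
    rw [sum_range_succ, add_comm, Nat.add_sub_cancel]
    refine add_le_add ((card_filter_le _ _).trans ?_) (sum_le_sum fun t ht => ?_)
    · rw [Int.card_Ioo]
      omega
    · have ht' : t + 1 < d.m := by
        have := mem_range.1 ht
        omega
      refine le_trans (card_le_card fun B hB => ?_)
        (p_CNT p_ITEM (p_FEW p_ITEM) σ J d.L d.R d.m d.x c Z Q hJ hM hO t ht')
      obtain ⟨b1, b2, b3, b4⟩ := mem_filter.1 hB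
      exact mem_filter.2 ⟨b1, b2, b3, hD t B ht' b3 b4⟩
  have h2 := p_BORN.2 σ J d.L d.R d.m d.x c Z Q hM hO
  have h3 : ∑ t ∈ range (d.m - 1), #(hit σ J d.L d.R d.x Q t) ≤
      ww wt σ J d.L d.R d.m d.x Q := by
    refine sum_le_sum fun t _ => ?_
    rw [card_eq_sum_ones]
    refine sum_le_sum fun j hj => hw.one _ ?_
    have := (mem_Ioo.1 (mem_filter.1 hj).1).1
    omega
  rw [sum_add_distrib, ← mul_sum, ← mul_sum] at h1
  omega

theorem wt_le0 {A : ℕ} {wt S : ℕ → ℕ} (hw : Wt A wt S) (e : ℕ) : wt e ≤ S e :=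
  (single_le_sum (f := wt) (fun _ _ => Nat.zero_le _) (self_mem_range_succ e)).trans (hw.sum e)

theorem wt_le {A : ℕ} {wt S : ℕ → ℕ} (hw : Wt A wt S) (e : ℕ) :
    wt e ≤ A * S 1 * e ^ 4 := by
  rcases e with _ | e
  · simp [hw.zero]
  · refine (wt_le0 hw _).trans ?_
    rw [add_comm e 1]
    exact (hw.grow 1 e le_rfl).trans (by rw [add_comm e 1])

theorem liv {A : ℕ} {wt S : ℕ → ℕ} (hw : Wt A wt S) (σ J c Z : ℕ) (d : NU.Run) (Q : ℕ → Finset ℤ)
    (hM : Marks d.L d.R d.m d.x c Z Q) :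
    ∑ j ∈ range J, wt (j - σ) * #(LP.LV d (cold σ d Q) j) ≤
      A * S 1 * (150 * (d.R - d.L).toNat) + ww wt σ J d.L d.R d.m d.x Q := by
  have hC := p_COLD p_ITEM σ c Z d Q hM
  have h1 := Nat.mul_le_mul_left (A * S 1) (LIVx.geo2 (d.R - d.L).toNat
    (fun j => #(Ioo (d.L / 2 ^ j) (d.R / 2 ^ j))) (fun j => p_BORN.1 j d.L d.R) J)
  have e : ∑ j ∈ range J, wt (j - σ) *
      #((range (d.m - 1)).filter fun t => j ∈ hit σ J d.L d.R d.x Q t) =
      ww wt σ J d.L d.R d.m d.x Q := by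
    unfold ww
    have h2 : ∀ t ∈ range (d.m - 1), ∑ j ∈ hit σ J d.L d.R d.x Q t, wt (j - σ) =
        ∑ j ∈ range J, if j ∈ hit σ J d.L d.R d.x Q t then wt (j - σ) else 0 := by
      intro t _
      rw [← sum_filter]
      apply sum_congr _ (fun _ _ => rfl)
      ext j
      constructor
      · intro hj
        refine mem_filter.2 ⟨?_, hj⟩
        unfold hit at hj
        exact mem_range.2 (mem_Ioo.1 (mem_filter.1 hj).1).2
      · intro hj
        exact (mem_filter.1 hj).2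
    rw [sum_congr rfl h2, sum_comm]
    apply sum_congr rfl
    intro j _
    rw [← sum_filter, sum_const, smul_eq_mul, mul_comm]
  rw [← e]
  refine le_trans ?_ (Nat.add_le_add_right h1 _)
  rw [mul_sum, ← sum_add_distrib]
  refine sum_le_sum fun j hj => ?_
  refine le_trans (Nat.mul_le_mul_left _ (LIVx.lev_bd Ap.en σ J d Q hC j (mem_range.1 hj))) ?_
  rw [mul_add, ← mul_assoc]
  refine Nat.add_le_add_right (Nat.mul_le_mul_right _ ?_) _
  exact (wt_le hw _).trans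
    (Nat.mul_le_mul_left _ (Nat.pow_le_pow_left (Nat.sub_le _ _) 4))

theorem avg_all {A : ℕ} {wt S : ℕ → ℕ} (hw : Wt A wt S) (a : ℕ → ℕ) (M l : ℕ) (hl : 1 ≤ l)
    (h1 : ∀ k, a k ≤ M) (h2 : ∀ r, 2 ^ (r + 1) * a (l + 1 + r) ≤ M) (r : ℕ) :
    ∑ k ∈ range (l + 1 + r), wt k * a k ≤ M * ((300 * A + 1) * S l) := by
  have k1 : ∑ k ∈ range (l + 1), wt k * a k ≤ S l * M :=
    (sum_le_sum fun k _ => Nat.mul_le_mul_left (wt k) (h1 k)).trans
      (by rw [← sum_mul]; exact Nat.mul_le_mul_right _ (hw.sum l))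
  have k2 := LIVx.geo2 (2 * M) (fun j => if 2 ≤ j then a (l + 1 + (j - 2)) else 0) (fun j => by
    split_ifs with h
    · obtain ⟨e, rfl⟩ := Nat.exists_eq_add_of_le' h
      have := h2 e
      rw [Nat.add_sub_cancel, pow_succ _ (e + 1)]
      nlinarith
    · simp) (r + 1 + 1)
  rw [sum_range_succ', sum_range_succ'] at k2
  simp only [Nat.le_add_left, if_true, add_assoc, Nat.reduceAdd, Nat.add_sub_cancel] at k2
  have k3 : ∑ k ∈ range r, wt (l + 1 + k) * a (l + 1 + k) ≤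
      A * S l * ∑ k ∈ range r, (k + 2) ^ 4 * a (l + (1 + k)) := by
    rw [mul_sum]
    refine sum_le_sum fun k _ => ?_
    rw [← mul_assoc, add_assoc]
    refine Nat.mul_le_mul_right _ ((wt_le0 hw _).trans
      ((hw.grow l (1 + k) hl).trans (le_of_eq ?_)))
    ring
  have k4 : ∑ k ∈ range r, (k + 2) ^ 4 * a (l + (1 + k)) ≤ 150 * (2 * M) :=
    le_trans (Nat.le_add_right _ _) k2
  have k5 := Nat.mul_le_mul_left (A * S l) k4
  have e : M * ((300 * A + 1) * S l) = S l * M + A * S l * (150 * (2 * M)) := by ring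
  rw [sum_range_add]
  omega

theorem avg {A : ℕ} {wt S : ℕ → ℕ} (hw : Wt A wt S) (σ T y z l : ℕ)
    (hl : l = Nat.log 2 (Nat.dist y z / 2 ^ σ + 1) + 1) :
    ∑ s ∈ range (2 ^ T), ∑ j ∈ Ioo σ (T + 1),
      (if (y + s) / 2 ^ j ≠ (z + s) / 2 ^ j then wt (j - σ) else 0) ≤
      2 ^ T * ((300 * A + 1) * S l) := by
  have hD : Nat.dist y z ≤ 2 ^ (σ + l) := hl ▸ AVGx.dist_le _ _
  set c : ℕ → ℕ := fun j =>
    ∑ s ∈ range (2 ^ T), if (y + s) / 2 ^ j ≠ (z + s) / 2 ^ j then 1 else 0 with hc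
  set a : ℕ → ℕ := fun k => if σ + k ≤ T then c (σ + k) else 0 with ha
  have h1 : ∀ k, a k ≤ 2 ^ T := fun k => by
    simp only [ha]
    split_ifs
    · have := sum_le_card_nsmul (range (2 ^ T))
        (fun s => if (y + s) / 2 ^ (σ + k) ≠ (z + s) / 2 ^ (σ + k) then 1 else 0) 1
        fun s _ => by split_ifs <;> omega
      rwa [card_range, smul_eq_mul, mul_one] at this
    · exact Nat.zero_le _
  have h2 : ∀ r, 2 ^ (r + 1) * a (l + 1 + r) ≤ 2 ^ T := fun r => by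
    simp only [ha]
    split_ifs with h
    · obtain ⟨e, he⟩ := Nat.exists_eq_add_of_le h
      have h3 := NU.Avg.split (pow_dvd_pow 2 h) y z
      have h4 : 2 ^ T / 2 ^ (σ + (l + 1 + r)) = 2 ^ e := by
        rw [Nat.pow_div h two_pos]
        congr 1
        omega
      rw [h4] at h3
      calc 2 ^ (r + 1) * c (σ + (l + 1 + r)) ≤ 2 ^ (r + 1) * (2 ^ (σ + l) * 2 ^ e) :=
            Nat.mul_le_mul_left _ (h3.trans (Nat.mul_le_mul_right _ hD))
        _ = 2 ^ T := by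
          rw [← pow_add, ← pow_add]
          congr 1
          omega
    · simp
  refine le_trans ?_ (avg_all hw a (2 ^ T) l (by omega) h1 h2 T)
  rw [sum_comm]
  have h5 : ∀ j ∈ Ioo σ (T + 1), ∑ s ∈ range (2 ^ T),
      (if (y + s) / 2 ^ j ≠ (z + s) / 2 ^ j then wt (j - σ) else 0) =
      wt (j - σ) * a (j - σ) := fun j hj => by
    have hj' := mem_Ioo.1 hj
    have h6 : σ + (j - σ) = j := by omega
    simp only [ha, h6]
    rw [if_pos (by omega)]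
    simp only [hc]
    rw [mul_sum]
    refine sum_congr rfl fun s _ => ?_
    split_ifs <;> simp
  rw [sum_congr rfl h5]
  have h7 : ∑ k ∈ range (l + 1 + T), wt k * a k =
      ∑ j ∈ (range (l + 1 + T)).image (σ + ·), wt (j - σ) * a (j - σ) := by
    rw [sum_image fun u _ v _ h => by simpa using h]
    simp only [Nat.add_sub_cancel_left]
  rw [h7]
  refine sum_le_sum_of_subset fun j hj => ?_
  have hj' := mem_Ioo.1 hj
  exact mem_image.2 ⟨j - σ, mem_range.2 (by omega), by omega⟩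

theorem gap {A : ℕ} {wt S : ℕ → ℕ} (hw : Wt A wt S) (K : ℕ) : ∃ C : ℕ, ∀ (σ J c Z : ℕ) (d : NU.Run) (Q : ℕ → Finset ℤ), d.OK →
    d.L / 2 ^ J = d.R / 2 ^ J → Marks d.L d.R d.m d.x c Z Q → One d.m d.x Q →
    K * ∑ t ∈ range d.m, out (its σ d.L d.R Q) d t ≤ 16 * d.NR +
      C * ((d.R - d.L).toNat + d.m + sw (d.R - d.L).toNat d.m Q +
        ww wt σ J d.L d.R d.m d.x Q) := by
  obtain ⟨C, hC⟩ := a_LEFT K
  refine ⟨23 * K + 12 * C + 12 * (K * (K + 1)), fun σ J c Z d Q ok hJ mk one => ?_⟩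
  have mm := (IT.p_LAZY _ _ _ _ _ _ _ mk).2
  obtain ⟨dt, sd, lab, sy, i1⟩ := inst_le hw σ J c Z d Q ok hJ mk one
  have l1 := hC _ d Q dt sd lab sy
  have l2 := p_RIGHT IT.p_TWO NU.a_EMIR K _ d Q dt sd lab sy
  have u1 := up ok mk
  have u2 := up (d := d.mir) (Q := mq Q) (NU.a_EMIR d |>.2 ok) mm
  have k1 : (d.mir.R - d.mir.L).toNat = (d.R - d.L).toNat := by
    change (mr d.L - mr d.R).toNat = _
    unfold mr
    omega
  have k2 : d.mir.m = d.m := rfl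
  rw [k1, k2, sw_mq] at u2
  have s1 : ∑ t ∈ range d.m, out (its σ d.L d.R Q) d t ≤ ∑ t ∈ range d.m, (IT.up d Q t + 4 +
      2 * (#((own (its σ d.L d.R Q) d Q t).filter fun B => sd t B) +
        #((own (its σ d.L d.R Q) d Q t).filter fun B => ¬ sd t B))) :=
    sum_le_sum fun t ht => by
      rw [card_filter_add_card_filter_not]
      exact p_CLS IT.p_TWO _ d Q ok sy.items t (mem_range.1 ht)
  simp only [sum_add_distrib, ← mul_sum, sum_const, card_range, smul_eq_mul] at s1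
  generalize (d.R - d.L).toNat = n at *
  exact GAPx.num s1 l1 l2 (by omega) (by omega) (by omega) (by omega)

theorem link {A : ℕ} {wt S : ℕ → ℕ} (hw : Wt A wt S) (hT : S_LQ wt) : ∃ C : ℕ, ∀ (σ J c Z : ℕ) (d : NU.Run) (Q : ℕ → Finset ℤ), d.OK →
    d.L / 2 ^ J = d.R / 2 ^ J → Marks d.L d.R d.m d.x c Z Q → One d.m d.x Q →
    100 * (d.LamR + d.mir.LamR) ≤ d.NR + d.mir.NR +
      C * ((σ + 1) * ((d.R - d.L).toNat + d.m) + sw (d.R - d.L).toNat d.m Q +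
        ww wt σ J d.L d.R d.m d.x Q) := by
  obtain ⟨C1, hC⟩ := hT
  obtain ⟨C2, hG⟩ := gap hw (64 * (C1 + 800))
  obtain ⟨B, hB⟩ : ∃ B, B = A * S 1 * 150 := ⟨_, rfl⟩
  refine ⟨96 * (C1 + 800) + C2 + C1 * (B + 25), fun σ J c Z d Q ok hJ mk one => ?_⟩
  have okm := (NU.a_EMIR d).2 ok
  obtain ⟨-, m1, m2, -⟩ := p_MIRW σ J d.L d.R d.m d.x Q
  have l1 := hC σ J d (cold σ d Q) ok (p_COLD p_ITEM σ c Z d Q mk) hJ
  have l2 := liv hw σ J c Z d Q mk
  rw [← mul_assoc, ← hB] at l2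
  obtain ⟨-, s1, s2⟩ := p_SIDE d ok
  have s2 := s2 (cold σ d Q)
  have n1 := p_NPB p_ITEM p_SIDE p_MIRW IT.p_TWO NU.a_EMIR σ d Q ok
  have g1 := hG σ J c Z d Q ok hJ mk one
  have g2 := hG σ J c Z d.mir (mq Q) okm (m1 hJ) (IT.p_LAZY _ _ _ _ _ _ _ mk).2 (m2 one)
  have i1 := IT.p_INT IT.p_TWO (IT.p_PAIR IT.p_TWO) NU.a_EMIR (σ + 1) d ok
  have i2 := IT.p_INT IT.p_TWO (IT.p_PAIR IT.p_TWO) NU.a_EMIR (σ + 1) d.mir okm
  have k1 : (d.mir.R - d.mir.L).toNat = (d.R - d.L).toNat := by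
    change (mr d.L - mr d.R).toNat = _
    unfold mr
    omega
  have k2 : d.mir.m = d.m := rfl
  have k3 : ww wt σ J d.mir.L d.mir.R d.m d.mir.x (mq Q) = ww wt σ J d.L d.R d.m d.x Q :=
    ww_mr wt σ J d.L d.R d.m d.x Q
  rw [k1, k2] at i2
  rw [k1, k2, k3, sw_mq] at g2
  rw [sum_add_distrib, sum_add_distrib] at n1
  generalize (d.R - d.L).toNat = n at *
  generalize ww wt σ J d.L d.R d.m d.x Q = w at *
  generalize sw n d.m Q = V at *
  have w2 : (σ + 1 + 1) * (2 * n + 6 * d.m) ≤ 12 * ((σ + 1) * (n + d.m)) :=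
    calc (σ + 1 + 1) * (2 * n + 6 * d.m) ≤ (2 * (σ + 1)) * (6 * (n + d.m)) :=
          Nat.mul_le_mul (by omega) (by omega)
      _ = _ := by ring
  have w3 : n + d.m ≤ (σ + 1) * (n + d.m) := Nat.le_mul_of_pos_left _ (by omega)
  generalize (σ + 1) * (n + d.m) = W at *
  obtain ⟨X, hX⟩ : ∃ X, X = W + V + w := ⟨_, rfl⟩
  rw [← hX]
  have w4 : C2 * (n + d.m + V + w) ≤ C2 * X := Nat.mul_le_mul_left _ (by omega)
  generalize ∑ t ∈ range d.m, out (its σ d.L d.R Q) d t = O1 at *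
  generalize ∑ t ∈ range d.m, out (its σ d.mir.L d.mir.R (mq Q)) d.mir t = O2 at *
  generalize #(LP.NP d (cold σ d Q)) = P at *
  have w5 : (C1 + 800) * P ≤ (C1 + 800) * (24 * X + O1 + O2) := Nat.mul_le_mul_left _ (by omega)
  have w7 : B * n ≤ B * X := Nat.mul_le_mul_left _ (by omega)
  have w6 : C1 * (n + d.m + P + ∑ t ∈ range d.m, IT.int (σ + 1) d t +
      ∑ t ∈ range d.m, IT.int (σ + 1) d.mir t +
      ∑ j ∈ range J, wt (j - σ) * #(LP.LV d (cold σ d Q) j)) ≤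
      C1 * (P + (B * X + 25 * X)) := Nat.mul_le_mul_left _ (by omega)
  rw [mul_assoc] at g1 g2
  have e1 : (C1 + 800) * (24 * X + O1 + O2) =
      24 * (C1 * X) + 19200 * X + (C1 + 800) * O1 + (C1 + 800) * O2 := by ring
  have e2 : C1 * (P + (B * X + 25 * X)) = C1 * P + C1 * (B * X + 25 * X) := by ring
  have e3 : (C1 + 800) * P = C1 * P + 800 * P := by ring
  have e4 : (96 * (C1 + 800) + C2 + C1 * (B + 25)) * X =
      96 * (C1 * X) + 76800 * X + C2 * X + C1 * (B * X + 25 * X) := by ring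
  omega

/-- Marks with a good shift, from given sets of keys. -/
theorem mark {A : ℕ} {wt S : ℕ → ℕ} (hw : Wt A wt S) (n u m : ℕ) (a : ℕ → ℕ) (Q : ℕ → Finset ℕ) (z : ℕ → ℕ)
    (q2 : ∀ i < m, ∀ w ∈ Q i, 1 ≤ w ∧ w ≤ n) (q3 : ∀ i < m, a i ∈ Q i)
    (q4 : ∀ i, i + 1 < m → Q (i + 1) ⊆ insert (a (i + 1)) (Q i) ∧
      #(insert (a (i + 1)) (Q i) \ Q (i + 1)) ≤ 1)
    (q5 : ∀ i, i + 1 < m → z i ∈ Q i) :
    ∃ (s J Z : ℕ) (Q' : ℕ → Finset ℤ), (s : ℤ) / 2 ^ J = ((s : ℤ) + n + 1) / 2 ^ J ∧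
      Marks s ((s : ℤ) + n + 1) m (fun i => (a i : ℤ) + s) n Z Q' ∧
      One m (fun i => (a i : ℤ) + s) Q' ∧ (∀ i, #(Q' i) = #(Q i)) ∧
      ww wt u J s ((s : ℤ) + n + 1) m (fun i => (a i : ℤ) + s) Q' ≤
        (300 * A + 1) * ∑ i ∈ range (m - 1),
          S (Nat.log 2 (Nat.dist (a (i + 1)) (z i) / 2 ^ u + 1) + 1) := by
  obtain ⟨T, hT⟩ : ∃ T, n + 1 < 2 ^ T := ⟨n + 1, Nat.lt_two_pow_self⟩
  let g : ℕ → ℕ → ℕ := fun s t => ∑ j ∈ Ioo u (T + 1),
    (if (a (t + 1) + s) / 2 ^ j ≠ (z t + s) / 2 ^ j then wt (j - u) else 0)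
  let G : ℕ → ℕ := fun i => S (Nat.log 2 (Nat.dist (a (i + 1)) (z i) / 2 ^ u + 1) + 1)
  obtain ⟨s, hs, hg⟩ := exists_le_of_sum_le (s := range (2 ^ T))
    (f := fun s => ∑ t ∈ range (m - 1), g s t) 
    (g := fun _ => (300 * A + 1) * ∑ i ∈ range (m - 1), G i)
    ⟨0, mem_range.2 (by positivity)⟩ (by
      rw [sum_comm, sum_const, card_range, smul_eq_mul]
      calc ∑ t ∈ range (m - 1), ∑ s ∈ range (2 ^ T), g s t
          ≤ ∑ t ∈ range (m - 1), 2 ^ T * ((300 * A + 1) * G t) :=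
            sum_le_sum fun t _ => avg hw u T _ _ _ rfl
        _ ≤ _ := by rw [← mul_sum, ← mul_sum])
  have hs' := mem_range.1 hs
  have inj : Function.Injective fun w : ℕ => (w : ℤ) + s := fun v w h => by
    simp only at h
    omega
  refine ⟨s, T + 1, ∑ i ∈ range (m - 1), Nat.dist (a (i + 1)) (z i),
    fun i => (Q i).image fun w : ℕ => (w : ℤ) + s, ?_, ?_, fun i hi => ?_,
    fun i => card_image_of_injective _ inj, le_trans (sum_le_sum fun t ht => ?_) hg⟩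
  · have h1 : ((s + n + 1 : ℕ) : ℤ) < ((2 ^ (T + 1) : ℕ) : ℤ) := by
      rw [Nat.cast_lt, pow_succ]; omega
    push_cast at h1
    rw [Int.ediv_eq_zero_of_lt (by omega) (by omega), Int.ediv_eq_zero_of_lt (by omega) h1]
  · refine ⟨fun i hi => card_image_le.trans ?_, fun i hi w hw => ?_,
      fun i hi => mem_image_of_mem _ (q3 i hi), fun i hi w hw => ?_,
      fun i => Nat.dist (a (i + 1)) (z i), le_rfl, fun i hi =>
        ⟨_, mem_image_of_mem _ (q5 i hi), ?_⟩⟩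
    · refine (card_le_card (t := Icc 1 n) fun w hw => mem_Icc.2 (q2 i hi w hw)).trans ?_
      simp
    · obtain ⟨w, h1, rfl⟩ := mem_image.1 hw
      have := q2 i hi w h1
      omega
    · obtain ⟨w, h1, rfl⟩ := mem_image.1 hw
      rcases mem_insert.1 ((q4 i hi).1 h1) with h | h
      · rw [h]; exact mem_insert_self _ _
      · exact mem_insert_of_mem (mem_image_of_mem _ h)
    · simp only [Nat.dist]
      rw [abs_le]
      omega
  · refine le_trans (le_of_eq ?_) (card_image_le.trans (q4 i hi).2 :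
      #((insert (a (i + 1)) (Q i) \ Q (i + 1)).image fun w : ℕ => (w : ℤ) + s) ≤ 1)
    rw [image_sdiff _ _ inj, image_insert]
  · have h0 : t + 1 < m := by have := mem_range.1 ht; omega
    rw [hit, sum_filter]
    refine sum_le_sum fun j _ => ?_
    split_ifs with h1 h2
    · exact le_rfl
    · refine absurd ?_ (h1.2.2 _ (mem_image_of_mem _ (q5 t h0)))
      have := congrArg (Nat.cast : ℕ → ℤ) (not_not.1 h2)
      push_cast at this
      exact this.symm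
    · exact Nat.zero_le _
    · exact le_rfl

theorem fin0 {A B : ℕ} {wt R G : ℕ → ℕ} (hw : Wt A wt R) (hT : S_LQ wt)
    (hG : ∀ l, R (l + 1) ≤ B * (G l + 1)) : S_ONE G := by
  obtain ⟨C, hC⟩ := link hw hT
  obtain ⟨E, hE⟩ : ∃ E, E = (300 * A + 1) * B := ⟨_, rfl⟩
  refine ⟨(E + 5) * C + 40, fun n u m T a Q0 z h2 h3 r2 r3 r4 r5 => ?_⟩
  rcases Nat.eq_zero_or_pos n with rfl | hn
  · rcases Nat.eq_zero_or_pos m with rfl | hm
    · simp [cost]
    · have := h3 0 hm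
      omega
  obtain ⟨s, J, Z, Q, q1, q2, q3, q0, q4⟩ := mark hw n u m a Q0 z r2 r3 r4 r5
  have k4 : n + m ≤ (u + 1) * (n + m) := Nat.le_mul_of_pos_left _ (by omega)
  have q5 := Nat.mul_le_mul_left (300 * A + 1) (sum_le_sum (s := range (m - 1)) fun i _ =>
    hG (Nat.log 2 (Nat.dist (a (i + 1)) (z i) / 2 ^ u + 1)))
  rw [← mul_sum, sum_add_distrib, sum_const, card_range, smul_eq_mul, mul_one, ← mul_assoc,
    ← hE] at q5
  have q8 := q4.trans q5
  have q6 : (u + 1) * (n + 1 + m) ≤ 2 * ((u + 1) * (n + m)) := by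
    rw [mul_left_comm]
    exact Nat.mul_le_mul_left _ (by omega)
  have q7 : sw (n + 1) m Q ≤ 2 * (n * Nat.size #(Q0 0)) + 5 * ∑ i ∈ range m, Nat.size #(Q0 i) := by
    simp only [sw, q0]
    refine Nat.add_le_add_right ?_ _
    rw [mul_comm, ← mul_assoc]
    exact Nat.mul_le_mul_right _ (by omega)
  clear q4 q5
  generalize ∑ i ∈ range (m - 1),
    G (Nat.log 2 (Nat.dist (a (i + 1)) (z i) / 2 ^ u + 1)) = S at q8 ⊢
  generalize (u + 1) * (n + m) = X at k4 q6 ⊢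
  generalize n * Nat.size #(Q0 0) = Y at q7 ⊢
  generalize ∑ i ∈ range m, Nat.size #(Q0 i) = D at q7 ⊢
  have q9 : E * (S + (m - 1)) ≤ E * (X + Y + D + S) := Nat.mul_le_mul_left _ (by omega)
  have key : ∀ f : NU.Run, f.OK → f.L = s → f.R = (s : ℤ) + n + 1 → f.m = m →
      (f.x = fun i => (a i : ℤ) + s) →
      100 * (f.LamR + f.mir.LamR) ≤ f.NR + f.mir.NR + C * ((E + 5) * (X + Y + D + S)) := by
    intro f hf f1 f2 f3 f4
    have l1 := hC u J n Z f Q hf (by rw [f1, f2]; exact q1)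
      (by rw [f1, f2, f3, f4]; exact q2) (by rw [f3, f4]; exact q3)
    have k1 : (f.R - f.L).toNat = n + 1 := by omega
    rw [k1, f1, f2, f3, f4] at l1
    refine l1.trans (Nat.add_le_add_left (Nat.mul_le_mul_left C ?_) _)
    rw [add_mul E 5]
    omega
  obtain ⟨d, d1, d2, d3, d4, d5, d6, d7, d8⟩ := NU.a_BRG n m s T a h2 h3
  obtain ⟨e, e1, e2, e3, e4⟩ := NU.a_ALGA d d5
  have t := NU.a_TURN d e d5 e2 e1 d6 d7
  obtain ⟨f1, f2, f3, f4⟩ := e1
  have l1 := key d d5 d1 d2 d3 d4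
  have l2 := key e e2 (f1.trans d1) (f2.trans d2) (f3.trans d3) (f4.trans d4)
  rw [f3, d3] at e3 e4
  have k3 : (d.R - d.L).toNat = n + 1 := by omega
  rw [k3, d3] at t
  have k5 : ((E + 5) * C + 40) * (X + Y + D + S) =
      C * ((E + 5) * (X + Y + D + S)) + 40 * (X + Y + D + S) := by ring
  omega

end Pool.Agent.P.MP_119182_lc.WQ
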